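import Pool.Agent.helper48.PR.SpecL

set_option autoImplicit false

namespace Pool.Agent.PR

open Matrix

theorem LRHO_inf (n : ℕ) (hn : 3 ≤ n) : Infinite (SLZ n) := by
  have h : (⟨0, by omega⟩ : Fin n) ≠ ⟨1, by omega⟩ := by
    intro h
    have := congrArg Fin.val h
    simp at this
  refine Infinite.of_injective (fun a : ℤ => el _ _ h a) ?_
  intro a b hab
  have h1 := congrArg (fun g : SLZ n => (g : Matrix (Fin n) (Fin n) ℤ) ⟨0, by omega⟩ ⟨1, by omega⟩) hab
  simp only [el_coe] at h1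
  simpa [Matrix.add_apply, Matrix.one_apply, h] using h1

theorem LRHO_inj (n q : ℕ) [Fact q.Prime] :
    Function.Injective (Matrix.SpecialLinearGroup.toGL.comp
      (Matrix.SpecialLinearGroup.map (n := Fin n) (Int.castRingHom ℤ_[q]))) := by
  intro a b hab
  apply Subtype.ext
  have h1 := congrArg (fun g : GL (Fin n) ℤ_[q] => (g : Matrix (Fin n) (Fin n) ℤ_[q])) hab
  ext i j
  have h2 := congrFun (congrFun h1 i) j
  simpa using h2

theorem LRHO (hTR : TR_stmt) (hLTOP : LTOP_stmt) : LRHO_stmt := by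
  intro n hn Λ _ hFG hQ q _
  obtain ⟨h1, h2, _⟩ := hLTOP n q
  obtain ⟨g, hg⟩ := hTR Λ (SLZ n) hFG hQ (GL (Fin n) ℤ_[q])
    (Matrix.SpecialLinearGroup.toGL.comp
      (Matrix.SpecialLinearGroup.map (n := Fin n) (Int.castRingHom ℤ_[q])))
  refine ⟨g, ?_⟩
  intro hfin
  have hc : closure (Set.range g) = Set.range g := hfin.isClosed.closure_eq
  have hinf := LRHO_inf n hn
  have hri := Set.infinite_range_of_injective (LRHO_inj n q)
  apply hri
  refine hfin.subset ?_
  rw [← hc, hg]
  exact subset_closure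

end Pool.Agent.PR
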