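import Pool.Agent.helper48.PR.SpecT

set_option autoImplicit false

namespace Pool.Agent.PR

open Matrix Polynomial

theorem TU_free (M : Type) [AddCommGroup M] [Module.Free ℤ M] [Module.Finite ℤ M]
    (hM : Module.finrank ℤ M ≤ 2) (A : Type) [AddCommGroup A] (g : A →+ M)
    (hg : Function.Injective g) (a b : A) (hab : ∀ i j : ℤ, i • a + j • b = 0 → i = 0 ∧ j = 0) :
    Nonempty (A ≃+ (Fin 2 → ℤ)) := by
  have hg' : Function.Injective g.toIntLinearMap := hg
  set N : Submodule ℤ M := LinearMap.range g.toIntLinearMap with hN
  let e : A ≃ₗ[ℤ] N := LinearEquiv.ofInjective g.toIntLinearMap hg'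
  have h1 : Module.finrank ℤ N ≤ 2 := le_trans (Submodule.finrank_le N) hM
  have hli : LinearIndependent ℤ ![a, b] := by
    rw [LinearIndependent.pair_iff]
    exact hab
  have hli2 : LinearIndependent ℤ (e ∘ ![a, b]) := hli.map' e.toLinearMap (LinearEquiv.ker e)
  have h2 : 2 ≤ Module.finrank ℤ N := by
    have := hli2.fintype_card_le_finrank
    simpa using this
  have h3 : Module.finrank ℤ N = 2 := le_antisymm h1 h2
  exact ⟨(e.trans (Module.finBasisOfFinrankEq ℤ N h3).equivFun).toAddEquiv⟩

theorem TU : TU_stmt := by
  intro K _ _ hK C _ θ hθ a b hab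
  have hr : NumberField.Units.rank K ≤ 2 := by
    unfold NumberField.Units.rank
    have h1 := NumberField.InfinitePlace.card_add_two_mul_card_eq_rank K
    rw [hK] at h1
    rw [NumberField.InfinitePlace.card_eq_nrRealPlaces_add_nrComplexPlaces]
    omega
  have hfr : Module.finrank ℤ (NumberField.Units.unitLattice K) ≤ 2 := by
    rw [NumberField.Units.unitLattice_rank]; exact hr
  let g₀ : Additive C →+ NumberField.Units.unitLattice K :=
    ((NumberField.Units.logEmbedding K).comp (MonoidHom.toAdditive θ)).codRestrict
      (NumberField.Units.unitLattice K)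
      (fun c => Submodule.mem_map_of_mem (Submodule.mem_top (x := MonoidHom.toAdditive θ c)))
  have hg₀ : Function.Injective g₀ := by
    rw [injective_iff_map_eq_zero]
    intro c hc
    have h1 : NumberField.Units.logEmbedding K (Additive.ofMul (θ c.toMul)) = 0 :=
      congrArg Subtype.val hc
    rw [NumberField.Units.dirichletUnitTheorem.logEmbedding_eq_zero_iff] at h1
    exact hθ c.toMul h1
  have hfree : Module.Free ℤ (NumberField.Units.unitLattice K) := by
    classical exact ZLattice.module_free ℝ (NumberField.Units.unitLattice K)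
  have hfinite : Module.Finite ℤ (NumberField.Units.unitLattice K) := by
    classical exact ZLattice.module_finite ℝ (NumberField.Units.unitLattice K)
  obtain ⟨e⟩ := TU_free _ hfr (Additive C) g₀ hg₀ (Additive.ofMul a)
    (Additive.ofMul b) (by
      intro i j hij
      exact hab i j hij)
  exact ⟨AddEquiv.toMultiplicativeRight e⟩

end Pool.Agent.PR
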