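import Pool.Agent.helper5.PR.SpecY

set_option autoImplicit false

namespace Pool.Agent.PR

open Matrix Module

theorem Y_CHAR_coord (A : Type) [AddCommGroup A] [Module.Finite ℤ A] :
    ∃ (r : ℕ) (c : A →+ (Fin r → ℤ)), ∀ a, c a = 0 → ∃ k : ℕ, 0 < k ∧ k • a = 0 := by
  let M := A ⧸ Submodule.torsion ℤ A
  have hfree : Module.Free ℤ M := inferInstance
  let b := Module.finBasis ℤ M
  refine ⟨Module.finrank ℤ M,
    (b.equivFun.toLinearMap.comp (Submodule.torsion ℤ A).mkQ).toAddMonoidHom, fun a ha => ?_⟩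
  have h1 : b.equivFun ((Submodule.torsion ℤ A).mkQ a) = 0 := ha
  have h2 : (Submodule.torsion ℤ A).mkQ a = 0 :=
    b.equivFun.map_eq_zero_iff.mp h1
  have h3 : a ∈ Submodule.torsion ℤ A := (Submodule.Quotient.mk_eq_zero _).mp h2
  obtain ⟨k, hk⟩ := (Submodule.mem_torsion_iff a).mp h3
  refine ⟨(k : ℤ).natAbs, ?_, ?_⟩
  · rw [Int.natAbs_pos]
    exact nonZeroDivisors.ne_zero k.2
  · have h4 : (k : ℤ) • a = 0 := hk
    rcases Int.natAbs_eq (k : ℤ) with h | h
    · rw [h] at h4
      rwa [natCast_zsmul] at h4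
    · rw [h] at h4
      rw [neg_smul, neg_eq_zero, natCast_zsmul] at h4
      exact h4

theorem Y_CHAR_val (p : ℕ) [Fact p.Prime] {ι : Type} (s : Finset ι) (q : ι → ℚ)
    (hq : ∀ i, q i ≠ 0) (v : ι → ℤ) :
    padicValRat p (∏ i ∈ s, q i ^ v i) = ∑ i ∈ s, v i * padicValRat p (q i) := by
  classical
  induction s using Finset.induction_on with
  | empty => simp
  | insert a s ha ih =>
    rw [Finset.prod_insert ha, Finset.sum_insert ha, padicValRat.mul, ih, padicValRat.zpow]
    · exact zpow_ne_zero _ (hq a)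
    · exact Finset.prod_ne_zero_iff.mpr fun i _ => zpow_ne_zero _ (hq i)

theorem Y_CHAR_indep (K : Type) [Field K] [CharZero K] (r : ℕ) (v : Fin r → ℤ)
    (h : ∏ i : Fin r, ((Nat.nth Nat.Prime i : ℕ) : K) ^ v i = 1) : v = 0 := by
  have h1 : ((∏ i : Fin r, ((Nat.nth Nat.Prime i : ℕ) : ℚ) ^ v i : ℚ) : K) = ((1 : ℚ) : K) := by
    push_cast
    exact h
  have h2 := Rat.cast_injective h1
  funext j
  have : Fact (Nat.nth Nat.Prime j).Prime := ⟨Nat.prime_nth_prime j⟩
  have h3 := congrArg (padicValRat (Nat.nth Nat.Prime j)) h2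
  rw [Y_CHAR_val _ _ _ (fun i => by exact_mod_cast (Nat.prime_nth_prime i).ne_zero)] at h3
  rw [padicValRat.one, Finset.sum_eq_single j] at h3
  · simpa using h3
  · intro i _ hij
    have hne : Nat.nth Nat.Prime i ≠ Nat.nth Nat.Prime j := fun he =>
      hij (Fin.ext (Nat.nth_injective Nat.infinite_setOfPred_prime he))
    rw [padicValRat.of_nat, padicValNat.eq_zero_of_not_dvd]
    · simp
    · intro hd
      exact hne ((Nat.prime_dvd_prime_iff_eq (Nat.prime_nth_prime j)
        (Nat.prime_nth_prime i)).mp hd).symm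
  · intro h
    exact absurd (Finset.mem_univ j) h

theorem Y_CHAR : Y_CHAR_stmt := by
  intro K _ _ Q _ hQ K₀ hK₀
  have : Group.FG Q := hQ
  have h1 : Group.FG (Abelianization Q) :=
    Group.fg_of_surjective (f := Abelianization.of) (Quotient.mk_surjective)
  have h2 : AddGroup.FG (Additive (Abelianization Q)) := inferInstance
  have h3 : Module.Finite ℤ (Additive (Abelianization Q)) := Module.Finite.iff_addGroup_fg.mpr h2
  obtain ⟨r, c, hc⟩ := Y_CHAR_coord (Additive (Abelianization Q))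
  let u : Fin r → Kˣ := fun i => Units.mk0 ((Nat.nth Nat.Prime i : ℕ) : K)
    (by exact_mod_cast (Nat.prime_nth_prime i).ne_zero)
  let θ : Q →* Kˣ :=
    { toFun := fun g => ∏ i, u i ^ (c (Additive.ofMul (Abelianization.of g)) i)
      map_one' := by simp
      map_mul' := by
        intro g h
        rw [← Finset.prod_mul_distrib]
        refine Finset.prod_congr rfl fun i _ => ?_
        rw [← _root_.zpow_add, map_mul, ofMul_mul, map_add, Pi.add_apply] }
  refine ⟨θ, fun g hg h => ?_⟩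
  have h4 : ∏ i, u i ^ (c (Additive.ofMul (Abelianization.of g)) i) = 1 := h
  have h5 : ∏ i : Fin r, ((Nat.nth Nat.Prime i : ℕ) : K) ^
      (c (Additive.ofMul (Abelianization.of g)) i) = 1 := by
    have := congrArg (Units.val) h4
    rw [Units.coe_prod] at this
    simpa [u] using this
  have h6 := Y_CHAR_indep K r _ h5
  obtain ⟨k, hk, hk2⟩ := hc _ h6
  apply hK₀ g hg k hk
  rw [← ofMul_pow, ← map_pow] at hk2
  have h7 : Abelianization.of (g ^ k) = 1 := hk2
  have h8 : g ^ k ∈ (Abelianization.of (G := Q)).ker := h7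
  rwa [Abelianization.ker_of] at h8

end Pool.Agent.PR
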